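import Mathlib

/-!
# Lifting tables of colours to larger uniformity
-/

set_option autoImplicit false

namespace Pool.Agent.Y189.SP.Lift

/-- One element more of type `j`. -/
def up (F : ℕ → ℕ) (j : ℕ) : ℕ → ℕ := fun i => if i = j then F i + 1 else F i

/-- One element less of type `j`. -/
def dn (F : ℕ → ℕ) (j : ℕ) : ℕ → ℕ := fun i => if i = j then F i - 1 else F i

/-- The number of elements of the types `1, …, r`. -/
def sz (r : ℕ) (F : ℕ → ℕ) : ℕ := ∑ i ∈ Finset.range r, F (i + 1)

/-- The type of a residue; the types `5` and `6` are those of the two light vertices. -/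
def ty (ρ : ℕ) : ℕ := if ρ < 5 then ρ else ρ + 2

/-- The light types have multiplicity at most one. -/
def Legal (F : ℕ → ℕ) : Prop := F 5 ≤ 1 ∧ F 6 ≤ 1

/-- Removing an element of a positive type does not change the colour, and lowers the crossing
number by at most one. -/
def POpt (r : ℕ) (φ c : (ℕ → ℕ) → ℕ) (F : ℕ → ℕ) : Prop :=
  ∀ u, 1 ≤ u → u ≤ r → 0 < F u → φ (dn F u) = φ F ∧ c F ≤ c (dn F u) + 1

/-- The type `j` is a good direction. -/
def Good (r : ℕ) (φ c : (ℕ → ℕ) → ℕ) (F : ℕ → ℕ) (j : ℕ) : Prop :=
  1 ≤ j ∧ j ≤ r ∧ j ≠ 5 ∧ j ≠ 6 ∧ j ≠ φ F ∧ φ (up F j) = φ F ∧ c F + 1 ≤ c (up F j) ∧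
    ∀ u, 1 ≤ u → u ≤ r → 0 < F u → φ (dn (up F j) u) = φ F ∧ c F ≤ c (dn (up F j) u)

/-- A good residue. -/
def WOpt (r : ℕ) (φ c : (ℕ → ℕ) → ℕ) (F : ℕ → ℕ) : Prop :=
  ∃ ρ, ρ < r - 1 ∧ Good r φ c F (ty ρ)

/-- A device of capacity `K` with the types `1, …, r`. -/
structure Dev (K r : ℕ) (φ c : (ℕ → ℕ) → ℕ) : Prop where
  loc : ∀ F F' : ℕ → ℕ, (∀ i, 1 ≤ i → i ≤ r → F i = F' i) → φ F = φ F' ∧ c F = c F'
  mono : ∀ F, Legal F → ∀ u, 1 ≤ u → u ≤ r → c (dn F u) ≤ c F
  col : ∀ F, Legal F → sz r F ≤ c F + (K - 1) →
    φ F ≤ r ∧ (φ F ≠ 0 → F (φ F) = 0) ∧ (φ F = 0 → sz r F = c F + (K - 1))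
  dir : ∀ F, Legal F → sz r F ≤ c F + (K - 1) → POpt r φ c F ∨ WOpt r φ c F

/-- The colour of the lifted device. -/
def liftφ (r : ℕ) (φ c : (ℕ → ℕ) → ℕ) : (ℕ → ℕ) → ℕ :=
  fun F => if F (r + 1) + c F = 0 then r + 1 else φ F

/-- The crossing number of the lifted device. -/
def liftc (r : ℕ) (c : (ℕ → ℕ) → ℕ) : (ℕ → ℕ) → ℕ := fun F => F (r + 1) + c F - 1

theorem up_self (F : ℕ → ℕ) (j : ℕ) : up F j j = F j + 1 := by simp [up]
theorem up_ne (F : ℕ → ℕ) {i j : ℕ} (h : i ≠ j) : up F j i = F i := by simp [up, h]
theorem dn_self (F : ℕ → ℕ) (j : ℕ) : dn F j j = F j - 1 := by simp [dn]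
theorem dn_ne (F : ℕ → ℕ) {i j : ℕ} (h : i ≠ j) : dn F j i = F i := by simp [dn, h]

theorem sz_succ (r : ℕ) (F : ℕ → ℕ) : sz (r + 1) F = sz r F + F (r + 1) := by
  simp [sz, Finset.sum_range_succ]

theorem ty_B (r : ℕ) (hr : 6 ≤ r) : ty (r - 1) = r + 1 := by
  unfold ty
  rw [if_neg (by omega)]; omega

theorem lift_dev {K r : ℕ} {φ c : (ℕ → ℕ) → ℕ} (hK : 1 ≤ K) (hr : 6 ≤ r) (D : Dev K r φ c) :
    Dev (K + 1) (r + 1) (liftφ r φ c) (liftc r c) ∧
      ∀ F, Legal F → sz (r + 1) F ≤ liftc r c F + (K + 1 - 1) →
        (POpt (r + 1) (liftφ r φ c) (liftc r c) F ∧ liftφ r φ c F ≠ 0) ∨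
          WOpt (r + 1) (liftφ r φ c) (liftc r c) F := by
  have hloc : ∀ F F' : ℕ → ℕ, (∀ i, 1 ≤ i → i ≤ r → F i = F' i) → φ F = φ F' ∧ c F = c F' := D.loc
  have hupB : ∀ F, φ (up F (r + 1)) = φ F ∧ c (up F (r + 1)) = c F := fun F =>
    hloc _ _ fun i _ hi => up_ne F (by omega)
  have hdnB : ∀ F, φ (dn F (r + 1)) = φ F ∧ c (dn F (r + 1)) = c F := fun F =>
    hloc _ _ fun i _ hi => dn_ne F (by omega)
  have hdir : ∀ F, Legal F → sz (r + 1) F ≤ liftc r c F + (K + 1 - 1) →
        (POpt (r + 1) (liftφ r φ c) (liftc r c) F ∧ liftφ r φ c F ≠ 0) ∨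
          WOpt (r + 1) (liftφ r φ c) (liftc r c) F := by
    intro F hL hF
    rw [sz_succ] at hF
    by_cases h0 : F (r + 1) + c F = 0
    · left
      have hφ : liftφ r φ c F = r + 1 := by simp only [liftφ, if_pos h0]
      refine ⟨?_, by rw [hφ]; omega⟩
      intro u hu1 hu2 hu3
      have hur : u ≠ r + 1 := by rintro rfl; omega
      have hm := D.mono F hL u hu1 (by omega)
      have h1 : dn F u (r + 1) = F (r + 1) := dn_ne F (fun h => hur h.symm)
      constructor
      · rw [hφ]
        simp only [liftφ]
        rw [if_pos (by omega)]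
      · simp only [liftc]
        omega
    · have hφ : liftφ r φ c F = φ F := by simp only [liftφ, if_neg h0]
      have hrel : sz r F ≤ c F + (K - 1) := by
        simp only [liftc] at hF
        omega
      right
      rcases D.dir F hL hrel with hP | hW
      · have hcol := (D.col F hL hrel).1
        have hGood : Good (r + 1) (liftφ r φ c) (liftc r c) F (r + 1) := by
          refine ⟨by omega, le_refl _, by omega, by omega, by rw [hφ]; omega, ?_, ?_, ?_⟩
          · rw [hφ]
            simp only [liftφ]
            rw [up_self, if_neg (by omega), (hupB F).1]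
          · simp only [liftc]
            rw [up_self, (hupB F).2]
            omega
          · intro u hu1 hu2 hu3
            by_cases hur : u = r + 1
            · subst hur
              have h2 : dn (up F (r + 1)) (r + 1) = F := by
                funext i
                by_cases hi : i = r + 1
                · subst hi; rw [dn_self, up_self]; omega
                · rw [dn_ne _ hi, up_ne _ hi]
              rw [h2]
              exact ⟨rfl, le_refl _⟩
            · have h3 := hP u hu1 (by omega) hu3
              have h4 : φ (dn (up F (r + 1)) u) = φ (dn F u) ∧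
                  c (dn (up F (r + 1)) u) = c (dn F u) := by
                apply hloc
                intro i _ hi
                by_cases hiu : i = u
                · subst hiu; rw [dn_self, dn_self, up_ne _ (by omega)]
                · rw [dn_ne _ hiu, dn_ne _ hiu, up_ne _ (by omega)]
              have h5 : dn (up F (r + 1)) u (r + 1) = F (r + 1) + 1 := by
                rw [dn_ne _ (fun h => hur h.symm), up_self]
              constructor
              · rw [hφ]
                simp only [liftφ]
                rw [if_neg (by omega), h4.1]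
                exact h3.1
              · simp only [liftc]
                omega
        refine ⟨r - 1, by omega, ?_⟩
        rw [ty_B r hr]; exact hGood
      · obtain ⟨ρ₁, h2r, hG1⟩ := hW
        have hlift : ∀ j, Good r φ c F j → Good (r + 1) (liftφ r φ c) (liftc r c) F j := by
          rintro j ⟨hj1, hj2, hja, hjb, hj3, hj4, hj5, hj6⟩
          have hjr : up F j (r + 1) = F (r + 1) := up_ne F (by omega)
          refine ⟨hj1, by omega, hja, hjb, by rw [hφ]; exact hj3, ?_, ?_, ?_⟩
          · rw [hφ]
            simp only [liftφ]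
            rw [hjr, if_neg (by omega)]
            exact hj4
          · simp only [liftc]
            rw [hjr]
            omega
          · intro u hu1 hu2 hu3
            by_cases hur : u = r + 1
            · subst hur
              have h6 : dn (up F j) (r + 1) (r + 1) = F (r + 1) - 1 := by rw [dn_self, hjr]
              have h7 := hdnB (up F j)
              constructor
              · rw [hφ]
                simp only [liftφ]
                rw [if_neg (by omega), h7.1]
                exact hj4
              · simp only [liftc]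
                omega
            · have h6 : dn (up F j) u (r + 1) = F (r + 1) := by
                rw [dn_ne _ (fun h => hur h.symm), hjr]
              have h7 := hj6 u hu1 (by omega) hu3
              constructor
              · rw [hφ]
                simp only [liftφ]
                rw [if_neg (by omega)]
                exact h7.1
              · simp only [liftc]
                omega
        exact ⟨ρ₁, by omega, hlift _ hG1⟩
  refine ⟨⟨?_, ?_, ?_, ?_⟩, hdir⟩
  · intro F F' h
    have h1 := hloc F F' (fun i hi1 hi2 => h i hi1 (by omega))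
    have h2 := h (r + 1) (by omega) (le_refl _)
    simp only [liftφ, liftc]
    rw [h1.1, h1.2, h2]
    exact ⟨rfl, rfl⟩
  · intro F hL u hu1 hu2
    simp only [liftc]
    by_cases hur : u = r + 1
    · subst hur
      rw [dn_self, (hdnB F).2]
      omega
    · have := D.mono F hL u hu1 (by omega)
      rw [dn_ne _ (fun h => hur h.symm)]
      omega
  · intro F hL hF
    rw [sz_succ] at hF ⊢
    by_cases h0 : F (r + 1) + c F = 0
    · have hφ : liftφ r φ c F = r + 1 := by simp only [liftφ, if_pos h0]
      rw [hφ]
      refine ⟨le_refl _, fun _ => by omega, fun h => absurd h (by omega)⟩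
    · have hφ : liftφ r φ c F = φ F := by simp only [liftφ, if_neg h0]
      have hrel : sz r F ≤ c F + (K - 1) := by
        simp only [liftc] at hF
        omega
      obtain ⟨h1, h2, h3⟩ := D.col F hL hrel
      rw [hφ]
      refine ⟨by omega, h2, fun h => ?_⟩
      have := h3 h
      simp only [liftc]
      omega
  · intro F hL hF
    rcases hdir F hL hF with h | h
    · exact Or.inl h.1
    · exact Or.inr h

end Pool.Agent.Y189.SP.Lift
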