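import Mathlib
import Pool.Agent.W421.SphereGeom

/-!
# Two families of simplices sharing only faces of codimension two do not form a sphere
-/

set_option autoImplicit false

open Set Metric

namespace Pool.Agent.Y189.SP.SphereGen

open Pool.Agent.W421.SphereGeom

/-- The affine space through `m + 1` vertices. -/
noncomputable def aff {n m : ℕ} (a : Fin (m + 1) → Fin n)
    (u : EuclideanSpace ℝ (Fin m)) : EuclideanSpace ℝ (Fin n) :=
  (∑ i : Fin m, u i • vtx (a i.castSucc)) + (1 - ∑ i : Fin m, u i) • vtx (a (Fin.last m))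

theorem contDiff_aff {n m : ℕ} (a : Fin (m + 1) → Fin n) : ContDiff ℝ 1 (aff a) := by
  have h0 : ∀ i : Fin m, ContDiff ℝ 1 (fun u : EuclideanSpace ℝ (Fin m) => u i) := by
    intro i
    fun_prop
  unfold aff
  refine ContDiff.add (ContDiff.sum fun i _ => (h0 i).smul contDiff_const) ?_
  exact (contDiff_const.sub (ContDiff.sum fun i _ => h0 i)).smul contDiff_const

theorem mem_aff {n m : ℕ} (hn : m + 1 ≤ n) {τ : Finset (Fin n)} (hτ : τ.card ≤ m + 1)
    {x : EuclideanSpace ℝ (Fin n)} (hx1 : ∑ v, x v = 1) (hx2 : ∀ v, v ∉ τ → x v = 0) :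
    ∃ (a : Fin (m + 1) → Fin n) (u : EuclideanSpace ℝ (Fin m)), aff a u = x := by
  classical
  obtain ⟨σ, hσ1, hσ2⟩ := Finset.exists_superset_card_eq hτ (by simpa using hn)
  have hx2' : ∀ v, v ∉ σ → x v = 0 := fun v hv => hx2 v (fun h => hv (hσ1 h))
  set a := σ.orderEmbOfFin hσ2 with ha
  have himg : Finset.univ.image a = σ := by
    ext v
    rw [Finset.mem_image]
    constructor
    · rintro ⟨i, -, rfl⟩
      exact Finset.orderEmbOfFin_mem σ hσ2 i
    · intro hv
      have h1 : v ∈ Set.range a := by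
        rw [ha, Finset.range_orderEmbOfFin]
        exact hv
      obtain ⟨i, hi⟩ := h1
      exact ⟨i, Finset.mem_univ _, hi⟩
  have hsum : ∑ i : Fin (m + 1), x (a i) = 1 := by
    rw [← hx1, ← Finset.sum_subset (Finset.subset_univ σ) (fun v _ hv => hx2' v hv), ← himg,
      Finset.sum_image (fun i _ j _ h => a.injective h)]
  refine ⟨a, WithLp.toLp 2 (fun i => x (a i.castSucc)), ?_⟩
  rw [Fin.sum_univ_castSucc] at hsum
  have hlast : (1 : ℝ) - ∑ i : Fin m, x (a i.castSucc) = x (a (Fin.last m)) := by linarith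
  have heq : aff a (WithLp.toLp 2 (fun i => x (a i.castSucc))) =
      ∑ i : Fin (m + 1), x (a i) • vtx (a i) := by
    rw [Fin.sum_univ_castSucc]
    unfold aff
    simp only [hlast]
  rw [heq]
  ext v
  simp only [WithLp.ofLp_sum, WithLp.ofLp_smul, Finset.sum_apply, Pi.smul_apply, smul_eq_mul,
    vtx, PiLp.ofLp_single]
  by_cases hv : v ∈ σ
  · rw [← himg, Finset.mem_image] at hv
    obtain ⟨i, -, rfl⟩ := hv
    rw [Finset.sum_eq_single i]
    · simp
    · intro j _ hji
      have : a j ≠ a i := fun h => hji (a.injective h)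
      simp [this.symm]
    · intro h
      exact absurd (Finset.mem_univ i) h
  · rw [hx2' v hv]
    apply Finset.sum_eq_zero
    intro i _
    have : v ≠ a i := by
      rintro rfl
      exact hv (Finset.orderEmbOfFin_mem σ hσ2 i)
    simp [this]

/-- Two nonempty families of `(m + 3)`-sets such that two sets of different families have at most
`m + 1` common points do not form an `(m + 2)`-sphere. -/
theorem no_sphere {n m : ℕ} (F₁ F₂ : Finset (Finset (Fin n))) (h₁ : ∀ e ∈ F₁, e.card = m + 3)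
    (h₂ : ∀ e ∈ F₂, e.card = m + 3) (hne₁ : F₁.Nonempty) (hne₂ : F₂.Nonempty)
    (h : ∀ e ∈ F₁, ∀ f ∈ F₂, (e ∩ f).card ≤ m + 1)
    (φ : ↥(real F₁ ∪ real F₂) ≃ₜ ↥(sphere (0 : EuclideanSpace ℝ (Fin (m + 2 + 1))) 1)) :
    False := by
  classical
  have hn : m + 1 ≤ n := by
    obtain ⟨e, he⟩ := hne₁
    have h1 := h₁ e he
    have h2 := Finset.card_le_univ e
    rw [Fintype.card_fin] at h2
    omega
  have key : ∀ (G₁ G₂ : Finset (Finset (Fin n))), (∀ e ∈ G₁, e.card = m + 3) → G₁.Nonempty →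
      (∀ e ∈ G₁, ∀ f ∈ G₂, (e ∩ f).card ≤ m + 1) → (real G₁ \ real G₂).Nonempty := by
    intro G₁ G₂ hc hne hG
    obtain ⟨e, he⟩ := hne
    have hecard := hc e he
    obtain ⟨x, hx, hx0⟩ := exists_bary e (by rw [← Finset.card_pos]; omega)
    refine ⟨x, ?_, ?_⟩
    · unfold real
      rw [mem_iUnion₂]
      exact ⟨e, he, hx⟩
    · intro hx2
      unfold real at hx2
      rw [mem_iUnion₂] at hx2
      obtain ⟨f, hf, hxf⟩ := hx2
      have h3 := (conv_props hxf).2
      have h4 : e ⊆ f := by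
        intro v hv
        by_contra hvf
        exact hx0 v hv (h3 v hvf)
      have h5 := hG e he f hf
      rw [Finset.inter_eq_left.2 h4] at h5
      omega
  refine Pool.Agent.W421.Sep.not_sep (d := m + 2) (m := m) (by omega) (real F₁) (real F₂)
    (isCompact_real F₁) (isCompact_real F₂) (J := Fin (m + 1) → Fin n)
    aff contDiff_aff ?_
    (key F₁ F₂ h₁ hne₁ h) (key F₂ F₁ h₂ hne₂ ?_) φ
  · rintro x ⟨hx1, hx2⟩
    unfold real at hx1 hx2
    rw [mem_iUnion₂] at hx1 hx2
    obtain ⟨e, he, hxe⟩ := hx1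
    obtain ⟨f, hf, hxf⟩ := hx2
    obtain ⟨a, u, hau⟩ := mem_aff hn (h e he f hf) (conv_props hxe).1 (by
      intro v hv
      rw [Finset.mem_inter, not_and_or] at hv
      rcases hv with hv | hv
      · exact (conv_props hxe).2 v hv
      · exact (conv_props hxf).2 v hv)
    rw [mem_iUnion]
    exact ⟨a, u, hau⟩
  · intro e he f hf
    rw [Finset.inter_comm]
    exact h f hf e he

end Pool.Agent.Y189.SP.SphereGen
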