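import Mathlib
import Pool.Agent.Y189.SP.Lift
import Pool.Agent.Y189.SP.SphereGen

/-!
# Hypergraphs of large codegree with small tight components from devices
-/

set_option autoImplicit false

namespace Pool.Agent.Y189.SP.Extract

open Finset Pool.Agent.Y189.SP.Lift

/-- The type of a vertex. -/
def tyv (r : ℕ) {n : ℕ} (v : Fin n) : ℕ :=
  if v.val = 0 then 5 else if v.val = 1 then 6 else ty (v.val % (r - 1))

/-- The numbers of elements of the types. -/
def cnt (r : ℕ) {n : ℕ} (S : Finset (Fin n)) : ℕ → ℕ := fun j => (S.filter fun v => tyv r v = j).card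

/-- The colour `a` is the common colour of all `(k - 1)`-subsets of `e`, and is not the type of an
element of `e`. -/
def HasColor (r : ℕ) (φ : (ℕ → ℕ) → ℕ) {n : ℕ} (e : Finset (Fin n)) (a : ℕ) : Prop :=
  a ≤ r ∧ ∀ v ∈ e, φ (cnt r (e.erase v)) = a ∧ tyv r v ≠ a

/-- The set of edges. -/
noncomputable def HN (K r : ℕ) (φ : (ℕ → ℕ) → ℕ) (n : ℕ) : Finset (Finset (Fin n)) := by
  classical
  exact (univ.powersetCard K).filter fun e => ∃ a : ℕ, HasColor r φ e a

theorem mem_HN {K r : ℕ} {φ : (ℕ → ℕ) → ℕ} {n : ℕ} {e : Finset (Fin n)} :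
    e ∈ HN K r φ n ↔ e.card = K ∧ ∃ a : ℕ, HasColor r φ e a := by
  classical
  simp [HN, mem_powersetCard]

theorem cnt_insert (r : ℕ) {n : ℕ} (S : Finset (Fin n)) {u : Fin n} (hu : u ∉ S) :
    cnt r (insert u S) = up (cnt r S) (tyv r u) := by
  classical
  funext j
  unfold cnt up
  rw [filter_insert]
  by_cases h : tyv r u = j
  · rw [if_pos h, if_pos h.symm, card_insert_of_notMem]
    intro h2
    exact hu (mem_filter.1 h2).1
  · rw [if_neg h, if_neg (fun h2 => h h2.symm)]

theorem cnt_erase (r : ℕ) {n : ℕ} (S : Finset (Fin n)) {v : Fin n} (hv : v ∈ S) :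
    cnt r (S.erase v) = dn (cnt r S) (tyv r v) := by
  classical
  funext j
  unfold cnt dn
  rw [filter_erase]
  by_cases h : tyv r v = j
  · rw [if_pos h.symm, card_erase_of_mem]
    exact mem_filter.2 ⟨hv, h⟩
  · rw [if_neg (fun h2 => h h2.symm), erase_eq_of_notMem]
    intro h2
    exact h (mem_filter.1 h2).2

theorem sz_cnt_le (r : ℕ) {n : ℕ} (S : Finset (Fin n)) : sz r (cnt r S) ≤ S.card := by
  classical
  unfold sz cnt
  simp only [card_filter]
  rw [sum_comm]
  have h : ∀ v ∈ S, (∑ i ∈ range r, if tyv r v = i + 1 then 1 else 0) ≤ 1 := by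
    intro v _
    rw [← card_filter, card_le_one]
    intro a ha b hb
    have h1 := (mem_filter.1 ha).2
    have h2 := (mem_filter.1 hb).2
    omega
  calc (∑ v ∈ S, ∑ i ∈ range r, if tyv r v = i + 1 then 1 else 0) ≤ ∑ v ∈ S, 1 := sum_le_sum h
    _ = S.card := by simp

theorem sz_cnt_lt (r : ℕ) {n : ℕ} (S : Finset (Fin n)) {v : Fin n} (hv : v ∈ S)
    (h0 : tyv r v = 0) : sz r (cnt r S) < S.card := by
  classical
  have h1 := sz_cnt_le r (S.erase v)
  rw [card_erase_of_mem hv, cnt_erase r S hv, h0] at h1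
  have h2 : sz r (dn (cnt r S) 0) = sz r (cnt r S) := by
    unfold sz
    apply sum_congr rfl
    intro i _
    rw [dn_ne _ (by omega)]
  rw [h2] at h1
  have h3 : 0 < S.card := card_pos.2 ⟨v, hv⟩
  omega

theorem ty_le {r ρ : ℕ} (hr : 6 ≤ r) (hρ : ρ < r - 1) : ty ρ ≤ r := by
  unfold ty
  split_ifs <;> omega

theorem tyv_le {r : ℕ} (hr : 6 ≤ r) {n : ℕ} (v : Fin n) : tyv r v ≤ r := by
  have h := ty_le hr (Nat.mod_lt v.val (by omega : 0 < r - 1))
  unfold tyv
  split_ifs <;> omega

theorem ty_ne (ρ : ℕ) : ty ρ ≠ 5 ∧ ty ρ ≠ 6 := by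
  unfold ty
  split_ifs <;> omega

theorem tyv_heavy {r : ℕ} {n : ℕ} (v : Fin n) (hv : 2 ≤ v.val) :
    tyv r v = ty (v.val % (r - 1)) := by
  unfold tyv
  rw [if_neg (by omega), if_neg (by omega)]

theorem legal_cnt (r : ℕ) {n : ℕ} (S : Finset (Fin n)) : Legal (cnt r S) := by
  classical
  have h : ∀ v : Fin n, (tyv r v = 5 → v.val = 0) ∧ (tyv r v = 6 → v.val = 1) := by
    intro v
    have := ty_ne (v.val % (r - 1))
    unfold tyv
    constructor
    · split_ifs <;> intro h <;> omega
    · split_ifs <;> intro h <;> omega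
  constructor
  · unfold cnt
    rw [card_le_one]
    intro a ha b hb
    apply Fin.ext
    rw [(h a).1 (mem_filter.1 ha).2, (h b).1 (mem_filter.1 hb).2]
  · unfold cnt
    rw [card_le_one]
    intro a ha b hb
    apply Fin.ext
    rw [(h a).2 (mem_filter.1 ha).2, (h b).2 (mem_filter.1 hb).2]

section

variable {K r : ℕ} {φ c : (ℕ → ℕ) → ℕ} (hK : 1 ≤ K) (hr : 6 ≤ r) (D : Dev K r φ c)
  (hdir : ∀ F, Legal F → sz r F ≤ c F + (K - 1) → (POpt r φ c F ∧ φ F ≠ 0) ∨ WOpt r φ c F)

include hK hr D hdir

theorem exists_residues {n : ℕ} (S : Finset (Fin n)) (hS : S.card = K - 1) :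
    ∃ ρ, ρ < r - 1 ∧ ∀ u : Fin n, u ∉ S → 2 ≤ u.val →
      u.val % (r - 1) = ρ → insert u S ∈ HN K r φ n := by
  classical
  set F := cnt r S with hF
  have hsz := sz_cnt_le r S
  rw [← hF, hS] at hsz
  have hrel : sz r F ≤ c F + (K - 1) := by omega
  have hL : Legal F := legal_cnt r S
  obtain ⟨hc1, hc2, hc3⟩ := D.col F hL hrel
  have hmiss : ∀ v ∈ S, tyv r v ≠ φ F := by
    intro v hv h
    by_cases h0 : φ F = 0
    · have h1 := hc3 h0
      have h2 := sz_cnt_lt r S hv (h.trans h0)
      rw [← hF] at h2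
      omega
    · have h1 : (S.filter fun v => tyv r v = φ F).card = 0 := hc2 h0
      rw [card_eq_zero] at h1
      have h2 : v ∈ S.filter fun v => tyv r v = φ F := mem_filter.2 ⟨hv, h⟩
      rw [h1] at h2
      exact absurd h2 (notMem_empty v)
  have hpos : ∀ v ∈ S, 0 < F (tyv r v) := by
    intro v hv
    rw [hF]
    unfold cnt
    exact card_pos.2 ⟨v, mem_filter.2 ⟨hv, rfl⟩⟩
  have hcard : ∀ u : Fin n, u ∉ S → (insert u S).card = K := by
    intro u hu
    rw [card_insert_of_notMem hu, hS]
    omega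
  rcases hdir F hL hrel with ⟨hP, hne⟩ | hW
  · refine ⟨0, by omega, ?_⟩
    intro u hu hu2 hres
    have htu : tyv r u = 0 := by
      rw [tyv_heavy u hu2, hres]
      rfl
    rw [mem_HN]
    refine ⟨hcard u hu, φ F, hc1, ?_⟩
    intro v hv
    rcases mem_insert.1 hv with rfl | hvS
    · rw [erase_insert hu]
      exact ⟨rfl, by rw [htu]; exact fun h => hne h.symm⟩
    · refine ⟨?_, hmiss v hvS⟩
      rw [cnt_erase r _ hv, cnt_insert r S hu, htu, ← hF]
      by_cases h0 : tyv r v = 0
      · rw [h0]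
        exact (D.loc _ _ fun i hi _ => by rw [dn_ne _ (by omega), up_ne _ (by omega)]).1
      · rw [← (hP (tyv r v) (by omega) (tyv_le hr v) (hpos v hvS)).1]
        refine (D.loc _ _ fun i hi _ => ?_).1
        by_cases h1 : i = tyv r v
        · subst h1
          rw [dn_self, dn_self, up_ne _ (by omega)]
        · rw [dn_ne _ h1, dn_ne _ h1, up_ne _ (by omega)]
  · obtain ⟨ρ₁, h2, hG1⟩ := hW
    have key : ∀ (u : Fin n), u ∉ S → Good r φ c F (tyv r u) → insert u S ∈ HN K r φ n := by
      intro u hu hG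
      obtain ⟨hj1, hj2, -, -, hj3, hj4, hj5, hj6⟩ := hG
      rw [mem_HN]
      refine ⟨hcard u hu, φ F, hc1, ?_⟩
      intro v hv
      rcases mem_insert.1 hv with rfl | hvS
      · rw [erase_insert hu]
        exact ⟨rfl, hj3⟩
      · refine ⟨?_, hmiss v hvS⟩
        rw [cnt_erase r _ hv, cnt_insert r S hu, ← hF]
        by_cases h0 : tyv r v = 0
        · rw [h0, ← hj4]
          exact (D.loc _ _ fun i hi _ => by rw [dn_ne _ (by omega)]).1
        · exact (hj6 (tyv r v) (by omega) (tyv_le hr v) (hpos v hvS)).1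
    refine ⟨ρ₁, h2, ?_⟩
    intro u hu hu2 hres
    apply key u hu
    rw [tyv_heavy u hu2, hres]
    exact hG1

theorem codeg {n : ℕ} (S : Finset (Fin n)) (hS : S.card = K - 1) :
    n / (r - 1) ≤ ((HN K r φ n).filter fun e => S ⊆ e).card + (K + 1) := by
  classical
  obtain ⟨ρ, h2, hgood⟩ := exists_residues hK hr D hdir S hS
  set N := r - 1 with hN
  have hN0 : 0 < N := by omega
  have hcardU : n / N ≤ (univ.filter fun u : Fin n => u.val % N = ρ).card := by
    have h : ∀ i : Fin (n / N), N * i.val + ρ < n := by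
      intro i
      have h1 := i.2
      have h2 : N * (i.val + 1) ≤ N * (n / N) := Nat.mul_le_mul_left _ h1
      have h3 := Nat.mul_div_le n N
      rw [Nat.mul_add, Nat.mul_one] at h2
      omega
    calc n / N = (univ : Finset (Fin (n / N))).card := by simp
      _ = (univ.image fun i : Fin (n / N) => (⟨N * i.val + ρ, h i⟩ : Fin n)).card := by
          rw [card_image_of_injective]
          intro i j hij
          simp only [Fin.mk.injEq] at hij
          ext
          have : N * i.val = N * j.val := by omega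
          exact Nat.eq_of_mul_eq_mul_left hN0 this
      _ ≤ _ := by
          apply card_le_card
          intro u hu
          rw [mem_image] at hu
          obtain ⟨i, -, rfl⟩ := hu
          rw [mem_filter]
          refine ⟨mem_univ _, ?_⟩
          simp only
          rw [Nat.mul_add_mod, Nat.mod_eq_of_lt h2]
  set U := univ.filter fun u : Fin n => u.val % N = ρ with hU
  have hL2 : (univ.filter fun u : Fin n => u.val < 2).card ≤ 2 := by
    have h : (univ.filter fun u : Fin n => u.val < 2).card ≤ (range 2).card := by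
      refine card_le_card_of_injOn (fun u : Fin n => u.val) ?_ ?_
      · intro u hu
        rw [mem_coe, mem_filter] at hu
        rw [mem_coe, mem_range]
        exact hu.2
      · intro u _ v _ huv
        exact Fin.ext huv
    rwa [card_range] at h
  set T := S ∪ univ.filter fun u : Fin n => u.val < 2 with hT
  have hTc : T.card ≤ K + 1 := by
    rw [hT]
    have := card_union_le S (univ.filter fun u : Fin n => u.val < 2)
    omega
  have h4 : U.card - T.card ≤ (U \ T).card := le_card_sdiff T U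
  have h5 : (U \ T).card ≤ ((HN K r φ n).filter fun e => S ⊆ e).card := by
    refine card_le_card_of_injOn (fun u => insert u S) ?_ ?_
    · intro u hu
      rw [mem_coe, mem_sdiff, hU, hT, mem_filter, mem_union, not_or, mem_filter] at hu
      rw [mem_coe, mem_filter]
      refine ⟨hgood u hu.2.1 ?_ hu.1.2, subset_insert _ _⟩
      by_contra h
      exact hu.2.2 ⟨mem_univ _, by omega⟩
    · intro u hu v hv huv
      rw [mem_coe, mem_sdiff, hT, mem_union, not_or] at hu hv
      have h6 : u ∈ insert v S := by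
        have h7 := mem_insert_self u S
        have huv' : insert u S = insert v S := huv
        rwa [huv'] at h7
      rcases mem_insert.1 h6 with h7 | h7
      · exact h7
      · exact absurd h7 hu.2.1
  omega

end

/-- Two edges with `k - 1` common vertices have the same colour. -/
theorem color_eq {K r : ℕ} {φ : (ℕ → ℕ) → ℕ} (hK : 1 ≤ K) {n : ℕ} {e f : Finset (Fin n)}
    (he : e ∈ HN K r φ n) (hf : f ∈ HN K r φ n)
    (h : K - 1 ≤ (e ∩ f).card) {a : ℕ} (ha : HasColor r φ e a) : HasColor r φ f a := by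
  classical
  obtain ⟨he1, -⟩ := mem_HN.1 he
  obtain ⟨hf1, b, hb⟩ := mem_HN.1 hf
  by_cases h6 : K ≤ (e ∩ f).card
  · have h7 : e ∩ f = e := eq_of_subset_of_card_le inter_subset_left (by omega)
    have h8 : e ∩ f = f := eq_of_subset_of_card_le inter_subset_right (by omega)
    rw [← h8, h7]
    exact ha
  · have h9 : ∀ g : Finset (Fin n), g.card = K → e ∩ f ⊆ g → ∃ v ∈ g, g.erase v = e ∩ f := by
      intro g hg hsub
      have h10 : (g \ (e ∩ f)).Nonempty := by
        rw [← card_pos]
        have := le_card_sdiff (e ∩ f) g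
        omega
      obtain ⟨v, hv⟩ := h10
      rw [mem_sdiff] at hv
      refine ⟨v, hv.1, ?_⟩
      symm
      apply eq_of_subset_of_card_le
      · intro x hx
        rw [mem_erase]
        exact ⟨fun hxv => hv.2 (hxv ▸ hx), hsub hx⟩
      · rw [card_erase_of_mem hv.1]
        omega
    obtain ⟨v, hv, hve⟩ := h9 e he1 inter_subset_left
    obtain ⟨v', hv', hve'⟩ := h9 f hf1 inter_subset_right
    have h11 := (ha.2 v hv).1
    have h12 := (hb.2 v' hv').1
    rw [hve] at h11
    rw [hve'] at h12
    have : a = b := h11.symm.trans h12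
    rw [this]
    exact hb

end Pool.Agent.Y189.SP.Extract
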