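import Mathlib
import Pool.Agent.Y189.SP.Table

/-!
# `6`-graphs of codegree `(1/5 - o(1)) n` with small tight components
-/

set_option autoImplicit false

namespace Pool.Agent.Y189.SP.Tight6

open Finset Pool.Agent.Y189.SP.Table

variable {n : ℕ}

/-- The type of a vertex: the first seven vertices are light, of types `0, …, 6`, the other ones
are heavy, of types `7, …, 11`. -/
def ty (v : Fin n) : ℕ := if v.val < 7 then v.val else 7 + v.val % 5

/-- The code of a set of vertices: the sum of the weights of the types of its elements. -/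
def code (S : Finset (Fin n)) : ℕ := ∑ v ∈ S, w (ty v)

/-- The colour `a` is the common colour of all five-subsets of `e`, and `a` is not the type of an
element of `e`. -/
def HasColor (e : Finset (Fin n)) (a : ℕ) : Prop :=
  a < 12 ∧ ∀ v ∈ e, col (code (e.erase v)) = a ∧ ty v ≠ a

/-- The set of edges of the counterexample. -/
noncomputable def HN (n : ℕ) : Finset (Finset (Fin n)) := by
  classical
  exact (univ.powersetCard 6).filter fun e => ∃ a : ℕ, HasColor e a

theorem mem_HN {e : Finset (Fin n)} : e ∈ HN n ↔ e.card = 6 ∧ ∃ a : ℕ, HasColor e a := by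
  classical
  simp [HN, mem_powersetCard]

theorem ty_lt (v : Fin n) : ty v < 12 := by
  unfold ty
  split_ifs <;> omega

theorem val_eq_of_ty {v : Fin n} {a : ℕ} (ha : a < 7) (h : ty v = a) : v.val = a := by
  unfold ty at h
  split_ifs at h <;> omega

theorem pairwise_ne_of_count : ∀ (L : List ℕ), (∀ a < 7, L.count a ≤ 1) →
    L.Pairwise (fun a b => a < 7 → a ≠ b)
  | [], _ => List.Pairwise.nil
  | p :: L, h => by
      rw [List.pairwise_cons]
      refine ⟨?_, pairwise_ne_of_count L ?_⟩
      · intro q hq hp hpq
        subst hpq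
        have h1 := h p hp
        rw [List.count_cons_self] at h1
        have h2 := List.count_pos_iff.2 hq
        omega
      · intro a ha
        exact (List.count_le_count_cons).trans (h a ha)

/-- The sorted list of the types of the elements of a five-set. -/
theorem exists_sorted (S : Finset (Fin n)) (hS : S.card = 5) :
    ∃ L : List ℕ, L.length = 5 ∧ good 0 L ∧ cd L = code S ∧ ∀ v ∈ S, ty v ∈ L := by
  classical
  set M : Multiset ℕ := S.val.map ty with hM
  set L := M.sort (· ≤ ·) with hL
  have hLM : (L : Multiset ℕ) = M := Multiset.sort_eq M (· ≤ ·)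
  have hmem : ∀ p, p ∈ L ↔ ∃ v ∈ S, ty v = p := by
    intro p
    rw [← Multiset.mem_coe, hLM, hM, Multiset.mem_map]
    simp
  refine ⟨L, ?_, ?_, ?_, ?_⟩
  · rw [← Multiset.coe_card, hLM, hM, Multiset.card_map]
    exact hS
  · apply good_of_pairwise
    · intro p hp
      obtain ⟨v, -, rfl⟩ := (hmem p).1 hp
      exact ⟨Nat.zero_le _, ty_lt v⟩
    · have h1 : L.Pairwise (fun a b => a ≤ b) := Multiset.pairwise_sort M (· ≤ ·)
      have h2 : L.Pairwise (fun a b => a < 7 → a ≠ b) := by
        apply pairwise_ne_of_count
        intro a ha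
        rw [← Multiset.coe_count, hLM, hM, Multiset.count_map]
        have h3 : Multiset.card (S.val.filter fun v => a = ty v) =
            (S.filter fun v => a = ty v).card := rfl
        rw [h3, Finset.card_le_one]
        intro u hu v hv
        rw [mem_filter] at hu hv
        apply Fin.ext
        rw [val_eq_of_ty ha hu.2.symm, val_eq_of_ty ha hv.2.symm]
      exact h1.and h2
  · unfold cd code
    have h1 : (L.map w).sum = ((L : Multiset ℕ).map w).sum := by simp
    rw [h1, hLM, hM, Multiset.map_map]
    rfl
  · intro v hv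
    exact (hmem _).2 ⟨v, hv, rfl⟩

/-- Adding a vertex of a good type to a five-set gives an edge. -/
theorem insert_mem {S : Finset (Fin n)} (hS : S.card = 5) {i : ℕ} {u : Fin n} (hu : u ∉ S)
    (hty : ty u = 7 + i) (h1 : col (code S) < 12) (h2 : 7 + i ≠ col (code S))
    (h3 : ∀ v ∈ S, ty v ≠ col (code S) ∧ col (code S + w (7 + i) - w (ty v)) = col (code S)) :
    insert u S ∈ HN n := by
  classical
  rw [mem_HN]
  refine ⟨by rw [card_insert_of_notMem hu, hS], col (code S), h1, ?_⟩
  intro v hv
  rcases mem_insert.1 hv with rfl | hvS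
  · rw [erase_insert hu]
    exact ⟨rfl, by rw [hty]; exact h2⟩
  · have h4 : code ((insert u S).erase v) = code S + w (7 + i) - w (ty v) := by
      have h5 : w (ty v) + ∑ x ∈ (insert u S).erase v, w (ty x) = ∑ x ∈ insert u S, w (ty x) :=
        Finset.add_sum_erase (insert u S) (fun v => w (ty v)) hv
      have h6 : ∑ x ∈ insert u S, w (ty x) = w (ty u) + ∑ x ∈ S, w (ty x) :=
        Finset.sum_insert (f := fun v => w (ty v)) hu
      rw [hty] at h6
      unfold code
      omega
    rw [h4]
    exact ⟨(h3 v hvS).2, (h3 v hvS).1⟩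

/-- Each heavy type has at least `(n - 7) / 5` elements. -/
theorem card_ty (i : ℕ) (hi : i < 5) :
    (n - 7) / 5 ≤ (univ.filter fun u : Fin n => ty u = 7 + i).card := by
  classical
  have h : ∀ j : Fin ((n - 7) / 5), 7 + 5 * j.val + (i + 3) % 5 < n := by
    intro j
    have := j.2
    omega
  calc (n - 7) / 5 = (univ : Finset (Fin ((n - 7) / 5))).card := by simp
    _ = (univ.image fun j : Fin ((n - 7) / 5) =>
          (⟨7 + 5 * j.val + (i + 3) % 5, h j⟩ : Fin n)).card := by
        rw [card_image_of_injective]
        intro j k hjk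
        simp only [Fin.mk.injEq] at hjk
        ext; omega
    _ ≤ _ := by
        apply card_le_card
        intro u hu
        rw [mem_image] at hu
        obtain ⟨j, -, rfl⟩ := hu
        rw [mem_filter]
        refine ⟨mem_univ _, ?_⟩
        simp only [ty]
        rw [if_neg (by omega)]
        omega

/-- All codegrees are at least `(n - 7) / 5 - 5`. -/
theorem codeg (S : Finset (Fin n)) (hS : S.card = 5) :
    (n - 7) / 5 ≤ ((HN n).filter fun e => S ⊆ e).card + 5 := by
  classical
  obtain ⟨L, hL, hg, hcd, hmem⟩ := exists_sorted S hS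
  obtain ⟨i, hi, h1, h2, h3⟩ := exists_dir L hL hg
  rw [hcd] at h1 h2 h3
  have hU := card_ty (n := n) i hi
  set U := univ.filter fun u : Fin n => ty u = 7 + i with hUdef
  have h4 : U.card - 5 ≤ (U \ S).card := by
    have := le_card_sdiff S U
    rwa [hS] at this
  have h5 : (U \ S).card ≤ ((HN n).filter fun e => S ⊆ e).card := by
    refine card_le_card_of_injOn (fun u => insert u S) ?_ ?_
    · intro u hu
      rw [mem_coe, mem_sdiff, hUdef, mem_filter] at hu
      rw [mem_coe, mem_filter]
      exact ⟨insert_mem hS hu.2 hu.1.2 h1 h2 (fun v hv => h3 _ (hmem v hv)), subset_insert _ _⟩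
    · intro u hu v hv huv
      rw [mem_coe, mem_sdiff] at hu hv
      have h6 : u ∈ insert v S := by
        have h7 := mem_insert_self u S
        have huv' : insert u S = insert v S := huv
        rwa [huv'] at h7
      rcases mem_insert.1 h6 with h7 | h7
      · exact h7
      · exact absurd h7 hu.2
  omega

/-- Two edges with five common vertices have the same colour. -/
theorem color_eq {e f : Finset (Fin n)} (he : e ∈ HN n) (hf : f ∈ HN n)
    (h : 5 ≤ (e ∩ f).card) {a : ℕ} (ha : HasColor e a) : HasColor f a := by
  classical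
  obtain ⟨he1, -⟩ := mem_HN.1 he
  obtain ⟨hf1, b, hb⟩ := mem_HN.1 hf
  by_cases h6 : 6 ≤ (e ∩ f).card
  · have h7 : e ∩ f = e := eq_of_subset_of_card_le inter_subset_left (by omega)
    have h8 : e ∩ f = f := eq_of_subset_of_card_le inter_subset_right (by omega)
    rw [← h8, h7]
    exact ha
  · have h9 : ∀ g : Finset (Fin n), g.card = 6 → e ∩ f ⊆ g → ∃ v ∈ g, g.erase v = e ∩ f := by
      intro g hg hsub
      have h10 : (g \ (e ∩ f)).Nonempty := by
        rw [← card_pos]
        have := le_card_sdiff (e ∩ f) g
        omega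
      obtain ⟨v, hv⟩ := h10
      rw [mem_sdiff] at hv
      refine ⟨v, hv.1, ?_⟩
      symm
      apply eq_of_subset_of_card_le
      · intro x hx
        rw [mem_erase]
        exact ⟨fun hxv => hv.2 (hxv ▸ hx), hsub hx⟩
      · rw [card_erase_of_mem hv.1]
        omega
    obtain ⟨v, hv, hve⟩ := h9 e he1 inter_subset_left
    obtain ⟨v', hv', hve'⟩ := h9 f hf1 inter_subset_right
    have h11 := (ha.2 v hv).1
    have h12 := (hb.2 v' hv').1
    rw [hve] at h11
    rw [hve'] at h12
    have : a = b := h11.symm.trans h12
    rw [this]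
    exact hb

end Pool.Agent.Y189.SP.Tight6
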