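import Mathlib
import Pool.Agent.Y189.SP.Tight6
import Pool.Agent.Y189.SP.Base
import Pool.Agent.Y189.SP.Extract

/-!
# Tight components of the hypergraphs from devices miss a vertex
-/

set_option autoImplicit false

namespace Pool.Agent.Y189.SP.Component

open Pool.Agent.Y189.SP.Tight6 in
theorem six (n : ℕ) (hn : 17 ≤ n) : ¬ ∃ e ∈ HN n, ∀ v : Fin n, ∃ f ∈ HN n,
    Relation.ReflTransGen (fun a b : Finset (Fin n) => a ∈ HN n ∧ b ∈ HN n ∧ 6 - 1 ≤ (a ∩ b).card)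
      e f ∧ v ∈ f := by
  rintro ⟨e₀, he₀, hcov⟩
  obtain ⟨-, a, ha⟩ := mem_HN.1 he₀
  have hex : ∃ u : Fin n, ty u = a := by
    by_cases h7 : a < 7
    · exact ⟨⟨a, by omega⟩, by simp [ty, h7]⟩
    · have ha1 := ha.1
      refine ⟨⟨7 + (a + 1) % 5, by omega⟩, ?_⟩
      simp only [ty]
      rw [if_neg (by omega)]
      omega
  obtain ⟨u, hu⟩ := hex
  obtain ⟨f₀, hf₀, hchain, hv⟩ := hcov u
  have key : ∀ f, Relation.ReflTransGen
      (fun a b : Finset (Fin n) => a ∈ HN n ∧ b ∈ HN n ∧ 6 - 1 ≤ (a ∩ b).card) e₀ f →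
      HasColor f a := by
    intro f hf
    induction hf with
    | refl => exact ha
    | tail _ hbc ih => exact color_eq hbc.1 hbc.2.1 (by have := hbc.2.2; omega) ih
  exact ((key f₀ hchain).2 _ hv).2 hu

open Pool.Agent.Y189.SP.Extract in
theorem exists_tyv {r n a : ℕ} (hr : 6 ≤ r) (ha : a ≤ r) (hn : 2 * r ≤ n) :
    ∃ u : Fin n, tyv r u = a := by
  by_cases h5 : a = 5
  · exact ⟨⟨0, by omega⟩, by simp [tyv, h5]⟩
  by_cases h6 : a = 6
  · exact ⟨⟨1, by omega⟩, by simp [tyv, h6]⟩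
  by_cases h7 : a < 5
  · refine ⟨⟨a + (r - 1), by omega⟩, ?_⟩
    have h1 : (a + (r - 1)) % (r - 1) = a := by
      rw [Nat.add_mod_right]
      exact Nat.mod_eq_of_lt (by omega)
    unfold tyv
    simp only
    rw [if_neg (by omega), if_neg (by omega), h1]
    unfold Pool.Agent.Y189.SP.Lift.ty
    rw [if_pos h7]
  · refine ⟨⟨(a - 2) + (r - 1), by omega⟩, ?_⟩
    have h1 : (a - 2 + (r - 1)) % (r - 1) = a - 2 := by
      rw [Nat.add_mod_right]
      exact Nat.mod_eq_of_lt (by omega)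
    unfold tyv
    simp only
    rw [if_neg (by omega), if_neg (by omega), h1]
    unfold Pool.Agent.Y189.SP.Lift.ty
    rw [if_neg (by omega)]
    omega

open Pool.Agent.Y189.SP.Extract in
theorem gen (k : ℕ) (hk : 6 ≤ k) (ψ : (ℕ → ℕ) → ℕ) (n : ℕ) (hn : 2 * k ≤ n) :
    ¬ ∃ e ∈ HN k k ψ n, ∀ v : Fin n, ∃ f ∈ HN k k ψ n,
    Relation.ReflTransGen
      (fun a b : Finset (Fin n) => a ∈ HN k k ψ n ∧ b ∈ HN k k ψ n ∧ k - 1 ≤ (a ∩ b).card)
      e f ∧ v ∈ f := by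
  rintro ⟨e₀, he₀, hcov⟩
  obtain ⟨-, a, ha⟩ := mem_HN.1 he₀
  obtain ⟨u, hu⟩ := exists_tyv (r := k) (n := n) hk ha.1 hn
  obtain ⟨f₀, hf₀, hchain, hv⟩ := hcov u
  have key : ∀ f, Relation.ReflTransGen
      (fun a b : Finset (Fin n) => a ∈ HN k k ψ n ∧ b ∈ HN k k ψ n ∧ k - 1 ≤ (a ∩ b).card) e₀ f →
      HasColor k ψ f a := by
    intro f hf
    induction hf with
    | refl => exact ha
    | tail _ hbc ih => exact color_eq (by omega) hbc.1 hbc.2.1 hbc.2.2 ih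
  exact ((key f₀ hchain).2 _ hv).2 hu

open Pool.Agent.Y189.SP.Lift in
theorem exists_dev : ∀ q : ℕ, ∃ φ c : (ℕ → ℕ) → ℕ, Dev (7 + q) (7 + q) φ c ∧
    ∀ F, Legal F → sz (7 + q) F ≤ c F + (7 + q - 1) →
      (POpt (7 + q) φ c F ∧ φ F ≠ 0) ∨ WOpt (7 + q) φ c F := by
  intro q
  induction q with
  | zero =>
    obtain ⟨D, h⟩ := lift_dev (by omega) (by omega) Pool.Agent.Y189.SP.Base.dev
    exact ⟨_, _, D, h⟩
  | succ q ih =>
    obtain ⟨φ, c, D, -⟩ := ih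
    obtain ⟨D', h⟩ := lift_dev (by omega) (by omega) D
    exact ⟨_, _, D', h⟩

/-- The arithmetic of the two bounds. -/
theorem arith {k n d : ℕ} (hk : 6 ≤ k) (hn : k * (k - 1) * (k + 2) ≤ n)
    (h : n ≤ (k - 1) * (d + k + 2)) : n ≤ k * d := by
  obtain ⟨j, rfl⟩ : ∃ j, k = j + 1 := ⟨k - 1, by omega⟩
  simp only [Nat.add_sub_cancel] at hn h
  have h1 : (j + 1) * n ≤ (j + 1) * (j * (d + (j + 1) + 2)) := Nat.mul_le_mul_left _ h
  have h2 : j * n ≤ j * ((j + 1) * d) := by nlinarith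
  exact Nat.le_of_mul_le_mul_left h2 (by omega)

end Pool.Agent.Y189.SP.Component
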