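import Mathlib
import Pool.Agent.W421.SphereGeom

/-!
# Two families of `5`-simplices sharing only faces of codimension two do not form a `5`-sphere
-/

set_option autoImplicit false

open Set Metric

namespace Pool.Agent.Y189.SP.Sphere6

open Pool.Agent.W421.SphereGeom

/-- The three-space through four vertices. -/
noncomputable def plane {n : ℕ} (a : Fin n × Fin n × Fin n × Fin n)
    (u : EuclideanSpace ℝ (Fin 3)) : EuclideanSpace ℝ (Fin n) :=
  u 0 • vtx a.1 + u 1 • vtx a.2.1 + u 2 • vtx a.2.2.1 + (1 - u 0 - u 1 - u 2) • vtx a.2.2.2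

theorem contDiff_plane {n : ℕ} (a : Fin n × Fin n × Fin n × Fin n) :
    ContDiff ℝ 1 (Sphere6.plane a) := by
  have h0 : ContDiff ℝ 1 (fun u : EuclideanSpace ℝ (Fin 3) => u 0) := by fun_prop
  have h1 : ContDiff ℝ 1 (fun u : EuclideanSpace ℝ (Fin 3) => u 1) := by fun_prop
  have h2 : ContDiff ℝ 1 (fun u : EuclideanSpace ℝ (Fin 3) => u 2) := by fun_prop
  unfold Sphere6.plane
  exact (((h0.smul contDiff_const).add (h1.smul contDiff_const)).add
    (h2.smul contDiff_const)).add
    ((((contDiff_const.sub h0).sub h1).sub h2).smul contDiff_const)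

theorem mem_plane {n : ℕ} (hn : 4 ≤ n) {τ : Finset (Fin n)} (hτ : τ.card ≤ 4)
    {x : EuclideanSpace ℝ (Fin n)} (hx1 : ∑ v, x v = 1) (hx2 : ∀ v, v ∉ τ → x v = 0) :
    ∃ a u, Sphere6.plane a u = x := by
  classical
  obtain ⟨σ, hσ1, hσ2⟩ := Finset.exists_superset_card_eq hτ (by simpa using hn)
  obtain ⟨a, b, c, d, hab, hac, had, hbc, hbd, hcd, rfl⟩ := Finset.card_eq_four.1 hσ2
  have hx2' : ∀ v, v ∉ ({a, b, c, d} : Finset (Fin n)) → x v = 0 := fun v hv =>
    hx2 v (fun h => hv (hσ1 h))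
  have hsum : x a + x b + x c + x d = 1 := by
    have h : ∑ v, x v = ∑ v ∈ ({a, b, c, d} : Finset (Fin n)), x v := by
      symm
      apply Finset.sum_subset (Finset.subset_univ _)
      intro v _ hv
      exact hx2' v hv
    rw [h, Finset.sum_insert (by simp [hab, hac, had]), Finset.sum_insert (by simp [hbc, hbd]),
      Finset.sum_insert (by simp [hcd]), Finset.sum_singleton] at hx1
    linarith
  refine ⟨(a, b, c, d), !₂[x a, x b, x c], ?_⟩
  ext v
  have h3 : (1 : ℝ) - x a - x b - x c = x d := by linarith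
  simp only [Sphere6.plane, vtx, PiLp.add_apply, PiLp.smul_apply, smul_eq_mul]
  by_cases hva : v = a
  · subst hva
    simp [hab, hac, had]
  by_cases hvb : v = b
  · subst hvb
    simp [hab.symm, hbc, hbd]
  by_cases hvc : v = c
  · subst hvc
    simp [hac.symm, hbc.symm, hcd]
  by_cases hvd : v = d
  · subst hvd
    simp [had.symm, hbd.symm, hcd.symm, h3]
  · rw [hx2' v (by simp [hva, hvb, hvc, hvd])]
    simp [hva, hvb, hvc, hvd]

/-- Two nonempty families of six-sets such that two sets of different families have at most four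
common points do not form a `5`-sphere. -/
theorem no_sphere {n : ℕ} (F₁ F₂ : Finset (Finset (Fin n))) (h₁ : ∀ e ∈ F₁, e.card = 6)
    (h₂ : ∀ e ∈ F₂, e.card = 6) (hne₁ : F₁.Nonempty) (hne₂ : F₂.Nonempty)
    (h : ∀ e ∈ F₁, ∀ f ∈ F₂, (e ∩ f).card ≤ 4)
    (φ : ↥(real F₁ ∪ real F₂) ≃ₜ ↥(sphere (0 : EuclideanSpace ℝ (Fin 6)) 1)) : False := by
  classical
  have hn : 4 ≤ n := by
    obtain ⟨e, he⟩ := hne₁
    have h1 := h₁ e he
    have h2 := Finset.card_le_univ e
    rw [Fintype.card_fin] at h2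
    omega
  have key : ∀ (G₁ G₂ : Finset (Finset (Fin n))), (∀ e ∈ G₁, e.card = 6) → G₁.Nonempty →
      (∀ e ∈ G₁, ∀ f ∈ G₂, (e ∩ f).card ≤ 4) → (real G₁ \ real G₂).Nonempty := by
    intro G₁ G₂ hc hne hG
    obtain ⟨e, he⟩ := hne
    have hecard := hc e he
    obtain ⟨x, hx, hx0⟩ := exists_bary e (by rw [← Finset.card_pos]; omega)
    refine ⟨x, ?_, ?_⟩
    · unfold real
      rw [mem_iUnion₂]
      exact ⟨e, he, hx⟩
    · intro hx2
      unfold real at hx2
      rw [mem_iUnion₂] at hx2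
      obtain ⟨f, hf, hxf⟩ := hx2
      have h3 := (conv_props hxf).2
      have h4 : e ⊆ f := by
        intro v hv
        by_contra hvf
        exact hx0 v hv (h3 v hvf)
      have h5 := hG e he f hf
      rw [Finset.inter_eq_left.2 h4] at h5
      omega
  refine Pool.Agent.W421.Sep.not_sep (d := 5) (m := 3) (by norm_num) (real F₁) (real F₂)
    (isCompact_real F₁) (isCompact_real F₂) (J := Fin n × Fin n × Fin n × Fin n)
    Sphere6.plane contDiff_plane ?_
    (key F₁ F₂ h₁ hne₁ h) (key F₂ F₁ h₂ hne₂ ?_) φ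
  · rintro x ⟨hx1, hx2⟩
    unfold real at hx1 hx2
    rw [mem_iUnion₂] at hx1 hx2
    obtain ⟨e, he, hxe⟩ := hx1
    obtain ⟨f, hf, hxf⟩ := hx2
    obtain ⟨a, u, hau⟩ := Sphere6.mem_plane hn (h e he f hf) (conv_props hxe).1 (by
      intro v hv
      rw [Finset.mem_inter, not_and_or] at hv
      rcases hv with hv | hv
      · exact (conv_props hxe).2 v hv
      · exact (conv_props hxf).2 v hv)
    rw [mem_iUnion]
    exact ⟨a, u, hau⟩
  · intro e he f hf
    rw [Finset.inter_comm]
    exact h f hf e he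

end Pool.Agent.Y189.SP.Sphere6
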